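import Pool.Agent.Lib.MP_755cca_al.Low.Oct
import Pool.Agent.Lib.MP_755cca_al.F.Stmt

/-! The lower bounds for `SL(3, ℤ)`, `SL(5, ℤ)` and `Sp(4, ℤ)` from a missed class. -/

open Matrix
open scoped Pointwise

namespace Pool.Agent.Lib.MP_755cca_al.Low

open F

theorem mem_cube {M : Type} [Monoid M] {U V : Set M} {g : M} (h : g ∈ (U * V) ^ 3) :
    ∃ a ∈ U, ∃ b ∈ V, ∃ c ∈ U, ∃ d ∈ V, ∃ e ∈ U, ∃ f ∈ V, g = a * b * c * d * e * f := by
  rw [pow_succ] at h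
  obtain ⟨x, hx, _, ⟨e, he, f, hf, rfl⟩, rfl⟩ := h
  obtain ⟨a, ha, b, hb, c, hc, d, hd, rfl⟩ := mem_sq.1 hx
  exact ⟨a, ha, b, hb, c, hc, d, hd, e, he, f, hf, by simp [mul_assoc]⟩

theorem lowA2 (hg : StepACSt) {p a : ℤ} (hc : IsCoprime p a) (hm : Miss p a) : LowA2St := by
  intro h
  obtain ⟨x, y, hxy⟩ := hc
  have hd : (!![0, 0, 1; x, a, 0; -y, p, 0] : Matrix (Fin 3) (Fin 3) ℤ).det = 1 := by
    rw [det_fin_three]; simp; linear_combination hxy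
  have := h ((hg.2.2.1 3 _).2 hd)
  unfold Pw at this
  rw [closure_posA, closure_negA] at this
  obtain ⟨u₁, h1, v₁, h2, u₂, h3, v₂, h4, u₃, h5, v₃, h6, e⟩ := mem_cube this
  exact hm u₁ h1 v₁ h2 u₂ h3 v₂ h4 u₃ h5 v₃ h6 _ e (by simp) (by simp) (by simp) (by simp)
    (by simp)

theorem lowA4 (hg : StepACSt) {p a : ℤ} (hc : IsCoprime p a) (hm : Miss p a) : ¬ UpA 5 2 := by
  intro h
  obtain ⟨x, y, hxy⟩ := hc
  set g : Matrix (Fin 5) (Fin 5) ℤ :=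
    !![0, 0, 0, -x, a; 0, 0, 0, y, p; 0, 0, 1, 0, 0; 0, 1, 0, 0, 0; 1, 0, 0, 0, 0] with hgdef
  have hd : g.det = 1 := by
    simp [hgdef, det_succ_column_zero, Fin.sum_univ_succ, Fin.succAbove]
    linear_combination hxy
  have := h ((hg.2.2.1 5 _).2 hd)
  unfold Pw at this
  rw [closure_posA, closure_negA] at this
  obtain ⟨u₁, h1, v, h2, u, h3, v₂, h4, e⟩ := mem_sq.1 this
  obtain ⟨w, hw, -, hw'⟩ := Um.inv h1
  obtain ⟨w', hw₂, hw₂', -⟩ := Um.inv h4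
  have key : w * g * w' = v * u := by
    rw [e]
    calc w * (u₁ * v * u * v₂) * w' = (w * u₁) * (v * u) * (v₂ * w') := by
          simp only [Matrix.mul_assoc]
      _ = v * u := by rw [hw', hw₂', Matrix.one_mul, Matrix.mul_one]
  obtain ⟨a1, a2⟩ := Up.entry hw
  obtain ⟨b1, b2⟩ := Lo.entry hw₂
  obtain ⟨c1, c2⟩ := Lo.entry h2
  obtain ⟨d1, d2⟩ := Up.entry h3
  set N := v * u with hN
  have s : ∀ i j, N i j = (w * g * w') i j := fun i j => by rw [key]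
  have n14 : N 1 4 = p := by
    rw [s]; simp +decide [hgdef, mul_apply, Fin.sum_univ_five, a1, a2, b1, b2]
  have n04 : N 0 4 = a + w 0 1 * p := by
    rw [s]; simp +decide [hgdef, mul_apply, Fin.sum_univ_five, a1, b1, b2]
  have n13 : N 1 3 = y + p * w' 4 3 := by
    rw [s]; simp +decide [hgdef, mul_apply, Fin.sum_univ_five, a1, a2, b1, b2]
  have n03 : N 0 3 = -x + w 0 1 * y + (a + w 0 1 * p) * w' 4 3 := by
    rw [s]; simp +decide [hgdef, mul_apply, Fin.sum_univ_five, a1, b1, b2]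
  have n22 : N 2 2 = 1 := by
    rw [s]; simp +decide [hgdef, mul_apply, Fin.sum_univ_five, a1, a2, b1, b2]
  have n23 : N 2 3 = 0 := by
    rw [s]; simp +decide [hgdef, mul_apply, Fin.sum_univ_five, a1, a2, b1, b2]
  have n31 : N 3 1 = 1 := by
    rw [s]; simp +decide [hgdef, mul_apply, Fin.sum_univ_five, a1, a2, b1, b2]
  have n32 : N 3 2 = 0 := by
    rw [s]; simp +decide [hgdef, mul_apply, Fin.sum_univ_five, a1, a2, b1, b2]
  have n33 : N 3 3 = 0 := by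
    rw [s]; simp +decide [hgdef, mul_apply, Fin.sum_univ_five, a1, a2, b1, b2]
  have m1 : N 0 0 = 1 := by
    simp +decide [hN, mul_apply, Fin.sum_univ_five, c1, c2, d1, d2]
  have m2 : N 1 1 - N 1 0 * N 0 1 = 1 := by
    simp +decide [hN, mul_apply, Fin.sum_univ_five, c1, c2, d1, d2]
  have m3 : N 2 2 * (N 1 1 - N 1 0 * N 0 1) - N 2 1 * (N 1 2 - N 1 0 * N 0 2)
      + N 2 0 * (N 0 1 * N 1 2 - N 1 1 * N 0 2) = 1 := by
    simp +decide [hN, mul_apply, Fin.sum_univ_five, c1, c2, d1, d2]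
    ring
  have m4 : N 3 3 * (N 2 2 * (N 1 1 - N 1 0 * N 0 1) - N 2 1 * (N 1 2 - N 1 0 * N 0 2)
        + N 2 0 * (N 0 1 * N 1 2 - N 1 1 * N 0 2))
      - N 3 2 * (N 2 3 * (N 1 1 - N 1 0 * N 0 1) - N 2 1 * (N 1 3 - N 1 0 * N 0 3)
        + N 2 0 * (N 0 1 * N 1 3 - N 1 1 * N 0 3))
      + N 3 1 * (N 2 3 * (N 1 2 - N 1 0 * N 0 2) - N 2 2 * (N 1 3 - N 1 0 * N 0 3)
        + N 2 0 * (N 0 2 * N 1 3 - N 1 2 * N 0 3))
      - N 3 0 * (N 2 3 * (N 0 1 * N 1 2 - N 1 1 * N 0 2) - N 2 2 * (N 0 1 * N 1 3 - N 1 1 * N 0 3)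
        + N 2 1 * (N 0 2 * N 1 3 - N 1 2 * N 0 3)) = 1 := by
    simp +decide [hN, mul_apply, Fin.sum_univ_five, c1, c2, d1, d2]
    ring
  rw [n22] at m3
  rw [n22, n23, n31, n32, n33] at m4
  refine chain (N 1 0) (N 0 1) (N 1 1) (N 2 1 - N 2 0 * N 0 1) (N 2 1 * N 1 0 - N 2 0 * N 1 1)
    (N 0 2) (N 1 2)
    (1 - N 2 0 * N 0 2 - N 3 0 * (N 0 1 - N 2 1 * N 0 2))
    (N 1 0 - N 2 0 * N 1 2 - N 3 0 * (N 1 1 - N 2 1 * N 1 2))
    (N 0 3) (N 1 3) (N 0 4) (N 1 4) (Or.inl ?_) (Or.inl ?_) (Or.inr ?_) (Or.inr ?_) (Or.inr ?_)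
    ⟨Or.inl n14, Or.inl ⟨w 0 1, by rw [n04]; ring⟩⟩ hm
  · linear_combination m2
  · linear_combination m2 - m3
  · have hl : (N 2 1 - N 2 0 * N 0 1) * N 1 1 - (N 2 1 * N 1 0 - N 2 0 * N 1 1) * N 0 1
        = N 2 1 := by linear_combination N 2 1 * m2
    rw [hl]
    linear_combination -m3
  · linear_combination -m4
  · rw [n03, n13, n04, n14]
    linear_combination -hxy

/-- the positive unipotent elements of `Sp(4, ℤ)` -/
def upC (x r s t : ℤ) : Matrix (Fin 2 ⊕ Fin 2) (Fin 2 ⊕ Fin 2) ℤ :=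
  fromBlocks !![1, x; 0, 1] !![r, s; s - x * t, t] 0 !![1, 0; -x, 1]

theorem upC_mul (x r s t x' r' s' t' : ℤ) : upC x r s t * upC x' r' s' t'
    = upC (x + x') (r' + x * (s' - x' * t') + r - s * x') (s' + x * t' + s) (t' + t) := by
  ext (i | i) (j | j) <;> fin_cases i <;> fin_cases j <;>
    simp [upC, fromBlocks_multiply] <;> ring

theorem exists_upC {g : Matrix (Fin 2 ⊕ Fin 2) (Fin 2 ⊕ Fin 2) ℤ}
    (hg : g ∈ Submonoid.closure (posC 2)) : ∃ x r s t, g = upC x r s t := by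
  induction hg using Submonoid.closure_induction with
  | mem A hA =>
    obtain ⟨i, j, c, ⟨h, rfl⟩ | ⟨h, rfl⟩ | rfl⟩ := hA
    · obtain ⟨rfl, rfl⟩ : i = 0 ∧ j = 1 := by omega
      refine ⟨c, 0, 0, 0, ?_⟩
      ext (i | i) (j | j) <;> fin_cases i <;> fin_cases j <;> simp [upC]
    · obtain ⟨rfl, rfl⟩ : i = 0 ∧ j = 1 := by omega
      refine ⟨0, 0, c, 0, ?_⟩
      ext (i | i) (j | j) <;> fin_cases i <;> fin_cases j <;> simp [upC]
    · fin_cases i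
      · refine ⟨0, c, 0, 0, ?_⟩
        ext (i | i) (j | j) <;> fin_cases i <;> fin_cases j <;> simp [upC]
      · refine ⟨0, 0, 0, c, ?_⟩
        ext (i | i) (j | j) <;> fin_cases i <;> fin_cases j <;> simp [upC]
  | one =>
    refine ⟨0, 0, 0, 0, ?_⟩
    ext (i | i) (j | j) <;> fin_cases i <;> fin_cases j <;> simp [upC]
  | mul A B _ _ hA hB =>
    obtain ⟨x, r, s, t, rfl⟩ := hA
    obtain ⟨x', r', s', t', rfl⟩ := hB
    exact ⟨_, _, _, _, upC_mul ..⟩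

theorem exists_loC {g : Matrix (Fin 2 ⊕ Fin 2) (Fin 2 ⊕ Fin 2) ℤ}
    (hg : g ∈ Submonoid.closure (transpose '' posC 2)) : ∃ x r s t, g = (upC x r s t)ᵀ := by
  have h := transpose_mem_closure hg
  rw [Set.image_image] at h
  simp only [transpose_transpose, Set.image_id'] at h
  obtain ⟨x, r, s, t, e⟩ := exists_upC h
  exact ⟨x, r, s, t, by rw [← e, transpose_transpose]⟩

/-- an integer matrix of determinant zero is a column times a row -/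
theorem rank_one {α β γ δ : ℤ} (h : α * δ = β * γ) :
    ∃ q₁ q₂ l₁ l₂ : ℤ, α = q₁ * l₁ ∧ β = q₁ * l₂ ∧ γ = q₂ * l₁ ∧ δ = q₂ * l₂ := by
  by_cases h0 : α = 0
  · subst h0
    rcases mul_eq_zero.1 (show β * γ = 0 by rw [← h]; ring) with h1 | h1
    · exact ⟨0, 1, γ, δ, by simp, by simp [h1], by simp, by simp⟩
    · exact ⟨β, δ, 0, 1, by simp, by simp, by simp [h1], by simp⟩
  · obtain ⟨q, l, ⟨l₂, h1⟩, ⟨q₂, h2⟩, h3⟩ := exists_dvd_and_dvd_of_dvd_mul (⟨δ, h.symm⟩ : α ∣ β * γ)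
    refine ⟨q, q₂, l, l₂, h3, h1, by rw [h2]; ring, ?_⟩
    apply mul_left_cancel₀ h0
    rw [h, h1, h2, h3]; ring

theorem lowC2 (hg : StepACSt) {p a : ℤ} (hc : IsCoprime p a) (hm : Miss p a) : ¬ UpC 2 2 := by
  intro h
  obtain ⟨x, y, hxy⟩ := hc
  set g : Matrix (Fin 2 ⊕ Fin 2) (Fin 2 ⊕ Fin 2) ℤ :=
    fromBlocks 0 !![a, x; p, -y] !![-y, -p; -x, a] 0 with hgdef
  have hd : g ∈ symplecticGroup (Fin 2) ℤ := by
    rw [SymplecticGroup.mem_iff]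
    ext (i | i) (j | j) <;> fin_cases i <;> fin_cases j <;>
      simp [hgdef, Matrix.J, fromBlocks_transpose, fromBlocks_multiply, mul_apply,
        Fin.sum_univ_two] <;>
      first | linear_combination hxy | linear_combination -hxy | ring
  rw [← hg.2.2.2 2] at hd
  obtain ⟨_, h1, _, h2, _, h3, _, h4, e⟩ := mem_sq.1 (h hd)
  obtain ⟨x₁, r₁, s₁, t₁, rfl⟩ := exists_upC h1
  obtain ⟨x₂, r₂, s₂, t₂, rfl⟩ := exists_loC h2
  obtain ⟨x₃, r₃, s₃, t₃, rfl⟩ := exists_upC h3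
  obtain ⟨x₄, r₄, s₄, t₄, rfl⟩ := exists_loC h4
  have e' : upC (-x₁) (-r₁) (-s₁ + x₁ * t₁) (-t₁) * g
      = (upC x₂ r₂ s₂ t₂)ᵀ * upC x₃ r₃ s₃ t₃ * (upC x₄ r₄ s₄ t₄)ᵀ := by
    have : upC (-x₁) (-r₁) (-s₁ + x₁ * t₁) (-t₁) * upC x₁ r₁ s₁ t₁ = 1 := by
      rw [upC_mul]
      ext (i | i) (j | j) <;> fin_cases i <;> fin_cases j <;> simp [upC] <;> ring
    rw [e, ← Matrix.mul_assoc, ← Matrix.mul_assoc, ← Matrix.mul_assoc, this, Matrix.one_mul]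
  have e00 := congrFun (congrFun e' (.inl 0)) (.inr 0)
  have e01 := congrFun (congrFun e' (.inl 0)) (.inr 1)
  have e10 := congrFun (congrFun e' (.inl 1)) (.inr 0)
  have e11 := congrFun (congrFun e' (.inl 1)) (.inr 1)
  simp [hgdef, upC, fromBlocks_transpose, fromBlocks_multiply, mul_apply, Fin.sum_univ_two]
    at e00 e01 e10 e11
  have hS : (r₃ + x₃ * s₃) * t₃ - s₃ * s₃ = -1 := by
    linear_combination -hxy + p * e01 + y * e00 + (-r₃ * x₄ + s₃) * e10 - r₃ * e11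
  obtain ⟨q₁, q₂, l₁, l₂, f1, f2, f3, f4⟩ := rank_one (α := 1 + s₃) (β := -(r₃ + x₃ * s₃))
    (γ := t₃) (δ := 1 - s₃) (by linear_combination hS)
  refine chain x₂ 0 1 l₂ (x₂ * l₂ - l₁) q₁ (x₂ * q₁ + q₂) s₃ (x₂ * s₃ + t₃) (s₃ + r₃)
    (x₂ * s₃ + t₃ + p) r₃ p (Or.inl ?_) (Or.inr ?_) (Or.inr ?_) (Or.inl ?_) (Or.inl ?_)
    ⟨Or.inl rfl, Or.inl ⟨-x₁, by linear_combination -e00⟩⟩ hm
  · ring
  · linear_combination -f1 - f4
  · linear_combination hS + t₃ * f2 - s₃ * f4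
  · linear_combination s₃ * e10 - hS
  · linear_combination s₃ * e10 - hS

/-- the three lower bounds from generation and a missed class -/
theorem low_of_miss (hg : StepACSt) (h : ∃ p a : ℤ, IsCoprime p a ∧ Miss p a) :
    LowSt ∧ LowA2St := by
  obtain ⟨p, a, hc, hm⟩ := h
  exact ⟨⟨lowA4 hg hc hm, lowC2 hg hc hm⟩, lowA2 hg hc hm⟩

end Pool.Agent.Lib.MP_755cca_al.Low
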