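import Pool.Agent.Lib.MP_755cca_al.TypeC

/-! The missed class: interface between the counting argument and the lower bounds. -/

open Matrix
open scoped Pointwise

namespace Pool.Agent.Lib.MP_755cca_al.Low

/-- upper unitriangular matrices -/
abbrev Up (n : ℕ) : Submonoid (Matrix (Fin n) (Fin n) ℤ) := Um (· < ·)

/-- lower unitriangular matrices -/
abbrev Lo (n : ℕ) : Submonoid (Matrix (Fin n) (Fin n) ℤ) := Um (flip (· < ·))

/-- no product of six unitriangular `3 × 3` factors has third column `(1, 0, 0)` and second column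
`(*, ± a mod p, ± p)` -/
def Miss (p a : ℤ) : Prop :=
  ∀ u₁ ∈ Up 3, ∀ v₁ ∈ Lo 3, ∀ u₂ ∈ Up 3, ∀ v₂ ∈ Lo 3, ∀ u₃ ∈ Up 3, ∀ v₃ ∈ Lo 3,
    ∀ g : Matrix (Fin 3) (Fin 3) ℤ, g = u₁ * v₁ * u₂ * v₂ * u₃ * v₃ →
      g 0 2 = 1 → g 1 2 = 0 → g 2 2 = 0 → (g 2 1 = p ∨ g 2 1 = -p) →
        ¬ (p ∣ g 1 1 - a ∨ p ∣ g 1 1 + a)

/-- entries of an upper unitriangular matrix -/
theorem Up.entry {n : ℕ} {u : Matrix (Fin n) (Fin n) ℤ} (hu : u ∈ Up n) :
    (∀ i, u i i = 1) ∧ ∀ i j, j < i → u i j = 0 := by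
  induction hu using Submonoid.closure_induction with
  | mem A hA =>
    obtain ⟨i, j, c, hij, hr, rfl⟩ := hA
    refine ⟨fun k => ?_, fun k l hkl => ?_⟩
    · have : ¬ (i = k ∧ j = k) := fun h => hij (h.1.trans h.2.symm)
      simp [transvection, this]
    · have : ¬ (i = k ∧ j = l) := by
        rintro ⟨rfl, rfl⟩
        exact lt_asymm hr hkl
      simp [transvection, this, one_apply, hkl.ne']
  | one => exact ⟨fun i => one_apply_eq i, fun i j h => one_apply_ne h.ne'⟩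
  | mul A B _ _ hA hB =>
    refine ⟨fun i => ?_, fun i j h => ?_⟩
    · rw [mul_apply, Finset.sum_eq_single i]
      · rw [hA.1, hB.1, one_mul]
      · intro k _ hk
        rcases lt_or_gt_of_ne hk with h | h
        · rw [hA.2 i k h, zero_mul]
        · rw [hB.2 k i h, mul_zero]
      · simp
    · rw [mul_apply]
      refine Finset.sum_eq_zero fun k _ => ?_
      rcases lt_or_ge k i with h' | h'
      · rw [hA.2 i k h', zero_mul]
      · rw [hB.2 k j (lt_of_lt_of_le h h'), mul_zero]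

/-- entries of a lower unitriangular matrix -/
theorem Lo.entry {n : ℕ} {v : Matrix (Fin n) (Fin n) ℤ} (hv : v ∈ Lo n) :
    (∀ i, v i i = 1) ∧ ∀ i j, i < j → v i j = 0 := by
  have h := Up.entry (n := n) (u := vᵀ) (Um_transpose hv)
  exact ⟨h.1, fun i j hij => h.2 j i hij⟩

theorem up3_mem (x y z : ℤ) : !![1, x, y; 0, 1, z; 0, 0, 1] ∈ Up 3 := by
  have e : (!![1, x, y; 0, 1, z; 0, 0, 1] : Matrix (Fin 3) (Fin 3) ℤ)
      = transvection 1 2 z * transvection 0 2 y * transvection 0 1 x := by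
    ext i j
    fin_cases i <;> fin_cases j <;>
      simp [transvection, mul_apply, Fin.sum_univ_three, one_apply, single_apply]
  rw [e]
  refine mul_mem (mul_mem ?_ ?_) ?_ <;>
    exact Submonoid.subset_closure ⟨_, _, _, by decide, by decide, rfl⟩

theorem lo3_mem (x y z : ℤ) : !![1, 0, 0; x, 1, 0; y, z, 1] ∈ Lo 3 := by
  have e : (!![1, 0, 0; x, 1, 0; y, z, 1] : Matrix (Fin 3) (Fin 3) ℤ)
      = transvection 1 0 x * transvection 2 0 y * transvection 2 1 z := by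
    ext i j
    fin_cases i <;> fin_cases j <;>
      simp [transvection, mul_apply, Fin.sum_univ_three, one_apply, single_apply]
  rw [e]
  refine mul_mem (mul_mem ?_ ?_) ?_ <;>
    exact Submonoid.subset_closure ⟨_, _, _, by decide, by simp [flip], rfl⟩

theorem Up.three {u : Matrix (Fin 3) (Fin 3) ℤ} (hu : u ∈ Up 3) :
    ∃ x y z : ℤ, u = !![1, x, y; 0, 1, z; 0, 0, 1] := by
  obtain ⟨h1, h2⟩ := Up.entry hu
  refine ⟨u 0 1, u 0 2, u 1 2, ?_⟩
  ext i j
  fin_cases i <;> fin_cases j <;> simp [h1] <;> exact h2 _ _ (by decide)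

theorem Lo.three {v : Matrix (Fin 3) (Fin 3) ℤ} (hv : v ∈ Lo 3) :
    ∃ x y z : ℤ, v = !![1, 0, 0; x, 1, 0; y, z, 1] := by
  obtain ⟨h1, h2⟩ := Lo.entry hv
  refine ⟨v 1 0, v 2 0, v 2 1, ?_⟩
  ext i j
  fin_cases i <;> fin_cases j <;> simp [h1] <;> exact h2 _ _ (by decide)

end Pool.Agent.Lib.MP_755cca_al.Low
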