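import Pool.Agent.Lib.MP_755cca_al.Low.Defs

/-! Chains of vectors in the plane that give a product of six unitriangular factors. -/

open Matrix

namespace Pool.Agent.Lib.MP_755cca_al.Low

/-- the class `± a` modulo `p` is hit by the vector `(x, y)` -/
def Hit (p a x y : ℤ) : Prop := (y = p ∨ y = -p) ∧ (p ∣ x - a ∨ p ∣ x + a)

theorem Hit.neg {p a x y : ℤ} (h : Hit p a x y) : Hit p a (-x) (-y) := by
  obtain ⟨h1, h2⟩ := h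
  refine ⟨by rcases h1 with h | h <;> simp [h], ?_⟩
  rcases h2 with h | h
  · right
    have : -x + a = -(x - a) := by ring
    rw [this]; exact h.neg_right
  · left
    have : -x - a = -(x + a) := by ring
    rw [this]; exact h.neg_right

/-- a matrix with leading minors one is lower times upper -/
theorem lu3 (a b c d e f g h : ℤ) (k : ℤ) (h2 : e - d * a = 1)
    (h3 : e * k - f * h - a * (d * k - f * g) + b * (d * h - e * g) = 1) (hc : c = 1) :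
    ∃ v ∈ Lo 3, ∃ u ∈ Up 3, !![c, a, b; d, e, f; g, h, k] = v * u := by
  subst hc
  refine ⟨_, lo3_mem d g (h - g * a), _, up3_mem a b (f - d * b), ?_⟩
  ext i j
  fin_cases i <;> fin_cases j <;> simp [mul_apply, Fin.sum_univ_three]
  · linear_combination h2
  · linear_combination h3 - (k - g * b) * h2

/-- eight vectors: the standard basis, then `(1, a₁, a₂)`, `b`, `c`, `d`, `e` -/
theorem oct {p a : ℤ} (a₁ a₂ b₀ b₁ b₂ c₀ c₁ c₂ d₀ d₁ d₂ e₀ e₁ e₂ : ℤ)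
    (h345 : b₁ - a₁ * b₀ = 1)
    (h456 : b₁ * c₂ - b₂ * c₁ - b₀ * (a₁ * c₂ - a₂ * c₁) + c₀ * (a₁ * b₂ - a₂ * b₁) = 1)
    (h567 : b₀ * (c₁ * d₂ - c₂ * d₁) - c₀ * (b₁ * d₂ - b₂ * d₁) + d₀ * (b₁ * c₂ - b₂ * c₁) = 1)
    (h678 : c₀ * (d₁ * e₂ - d₂ * e₁) - d₀ * (c₁ * e₂ - c₂ * e₁) + e₀ * (c₁ * d₂ - c₂ * d₁) = 1)
    (h781 : d₁ * e₂ - d₂ * e₁ = 1) (hh : Hit p a e₁ e₂) : ¬ Miss p a := by
  intro hm
  obtain ⟨v₁, hv₁, u₂, hu₂, e1⟩ := lu3 b₀ c₀ 1 a₁ b₁ c₁ a₂ b₂ c₂ (by linear_combination h345)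
    (by linear_combination h456) rfl
  set A : Matrix (Fin 3) (Fin 3) ℤ := !![1, b₀, c₀; a₁, b₁, c₁; a₂, b₂, c₂] with hA
  set B : Matrix (Fin 3) (Fin 3) ℤ := !![d₀, e₀, 1; d₁, e₁, 0; d₂, e₂, 0] with hB
  have dA : A.det = 1 := by
    rw [e1, det_mul, Um.det hv₁, Um.det hu₂, one_mul]
  have dB : B.det = 1 := by
    rw [hB, det_fin_three]; simp; linear_combination h781
  set M : Matrix (Fin 3) (Fin 3) ℤ := A.adjugate * B with hM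
  have hAM : A * M = B := by
    rw [hM, ← Matrix.mul_assoc, mul_adjugate, dA, one_smul, Matrix.one_mul]
  have dM : M.det = 1 := by
    have := congrArg det hAM
    rwa [det_mul, dA, dB, one_mul] at this
  have m00 : M 0 0 = 1 := by
    simp [hM, hA, hB, adjugate_fin_three]
    linear_combination h567
  have m2 : M 1 1 - M 1 0 * M 0 1 = 1 := by
    have : M 0 0 * M 1 1 - M 1 0 * M 0 1 = 1 := by
      simp [hM, hA, hB, adjugate_fin_three]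
      linear_combination
        (c₀ * (d₁ * e₂ - d₂ * e₁) - d₀ * (c₁ * e₂ - c₂ * e₁) + e₀ * (c₁ * d₂ - c₂ * d₁)) * h456
          + h678
    rw [m00, one_mul] at this
    exact this
  obtain ⟨v₂, hv₂, u₃, hu₃, e2⟩ := lu3 (M 0 1) (M 0 2) (M 0 0) (M 1 0) (M 1 1) (M 1 2) (M 2 0)
    (M 2 1) (M 2 2) m2 (by rw [det_fin_three, m00] at dM; linear_combination dM) m00
  rw [← eta_fin_three M] at e2
  refine hm 1 (one_mem _) v₁ hv₁ u₂ hu₂ v₂ hv₂ u₃ hu₃ 1 (one_mem _) B ?_ (by simp [hB])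
    (by simp [hB]) (by simp [hB]) (by simpa [hB] using hh.1) (by simpa [hB] using hh.2)
  rw [one_mul, mul_one, ← e1, mul_assoc, ← e2, hAM]

/-- the chain with all determinants equal to one -/
theorem chain₁ {p a : ℤ} (t u₁ u₂ w₁ w₂ q₁ q₂ s z₁ z₂ d₁ d₂ e₁ e₂ : ℤ)
    (hu : u₂ - t * u₁ = 1)
    (hs : (1 - (w₁ * q₂ - w₂ * q₁)) * s = 1 + (u₁ * q₂ - u₂ * q₁))
    (hz : (-u₁ + (w₁ * u₂ - w₂ * u₁) * q₁) * z₂ - (-u₂ + (w₁ * u₂ - w₂ * u₁) * q₂) * z₁ = 1)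
    (hd : d₁ * z₂ - d₂ * z₁ = 1) (he : d₁ * e₂ - d₂ * e₁ = 1) (hh : Hit p a e₁ e₂) :
    ¬ Miss p a := by
  obtain ⟨c₁, hc₁⟩ : ∃ c, c = u₁ + s * w₁ := ⟨_, rfl⟩
  obtain ⟨c₂, hc₂⟩ : ∃ c, c = u₂ + s * w₂ := ⟨_, rfl⟩
  obtain ⟨m, hm⟩ : ∃ m, m = 1 - (w₁ * q₂ - w₂ * q₁) := ⟨_, rfl⟩
  obtain ⟨l, hl⟩ : ∃ l, l = q₂ - t * q₁ := ⟨_, rfl⟩
  obtain ⟨f₁, hf₁⟩ : ∃ f, f = -u₁ + (w₁ * u₂ - w₂ * u₁) * q₁ := ⟨_, rfl⟩
  obtain ⟨f₂, hf₂⟩ : ∃ f, f = -u₂ + (w₁ * u₂ - w₂ * u₁) * q₂ := ⟨_, rfl⟩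
  rw [← hf₁, ← hf₂] at hz
  have h6 : s - (c₁ * q₂ - c₂ * q₁) = 1 := by
    rw [hc₁, hc₂]; linear_combination hs
  have g₁ : f₁ = w₁ - m * c₁ := by
    rw [hf₁, hm, hc₁]; linear_combination w₁ * hs
  have g₂ : f₂ = w₂ - m * c₂ := by
    rw [hf₂, hm, hc₂]; linear_combination w₂ * hs
  have h0 : f₁ * (t + l * c₂) - f₂ * (1 + l * c₁) = 1 := by
    rw [g₁, g₂, hm, hl]
    have h456 : c₂ - t * c₁ + s * (w₁ * t - w₂) = 1 := by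
      rw [hc₁, hc₂]; linear_combination hu
    linear_combination h456 - (w₁ * t - w₂) * h6
  obtain ⟨η, hη⟩ : ∃ η, η = z₁ * (t + l * c₂) - z₂ * (1 + l * c₁) := ⟨_, rfl⟩
  have k₁ : z₁ = 1 + l * c₁ + η * f₁ := by
    rw [hη]; linear_combination (1 + l * c₁) * hz - z₁ * h0
  have k₂ : z₂ = t + l * c₂ + η * f₂ := by
    rw [hη]; linear_combination (t + l * c₂) * hz - z₂ * h0
  refine oct w₁ w₂ η (1 + η * w₁) (t + η * w₂) s c₁ c₂ (d₁ * q₂ - d₂ * q₁) d₁ d₂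
    (e₁ * q₂ - e₂ * q₁) e₁ e₂ (by ring) ?_ ?_ ?_ he hh
  · rw [hc₁, hc₂]; linear_combination hu
  · rw [k₁, k₂, g₁, g₂, hm, hl] at hd
    linear_combination hd - ((1 + η * w₁) * d₂ - (t + η * w₂) * d₁) * h6
  · linear_combination he + (d₁ * e₂ - d₂ * e₁) * h6

/-- two vectors of the plane form a basis -/
def Adj (x₁ x₂ y₁ y₂ : ℤ) : Prop := x₁ * y₂ - x₂ * y₁ = 1 ∨ x₁ * y₂ - x₂ * y₁ = -1

theorem Adj.sign {x₁ x₂ y₁ y₂ : ℤ} (h : Adj x₁ x₂ y₁ y₂) :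
    ∃ ε : ℤ, (ε = 1 ∨ ε = -1) ∧ ε * (x₁ * y₂ - x₂ * y₁) = 1 := by
  rcases h with h | h
  · exact ⟨1, Or.inl rfl, by rw [h]; ring⟩
  · exact ⟨-1, Or.inr rfl, by rw [h]; ring⟩

/-- the chain `(0, 1) ~ (1, t) ~ u`, `T u ~ z ~ d ~ e` for a transvection or reflection `T` -/
theorem chain {p a : ℤ} (t u₁ u₂ w₁ w₂ q₁ q₂ z₁ z₂ d₁ d₂ e₁ e₂ : ℤ)
    (hu : Adj 1 t u₁ u₂) (hq : w₁ * q₂ - w₂ * q₁ = 0 ∨ w₁ * q₂ - w₂ * q₁ = 2)
    (hz : Adj (u₁ - (w₁ * u₂ - w₂ * u₁) * q₁) (u₂ - (w₁ * u₂ - w₂ * u₁) * q₂) z₁ z₂)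
    (hd : Adj z₁ z₂ d₁ d₂) (he : Adj d₁ d₂ e₁ e₂) (hh : Hit p a e₁ e₂) : ¬ Miss p a := by
  obtain ⟨α, hα, h1⟩ := hu.sign
  obtain ⟨β, hβ, h2⟩ := hz.sign
  obtain ⟨γ, hγ, h3⟩ := hd.sign
  obtain ⟨δ, hδ, h4⟩ := he.sign
  have α2 : α * α = 1 := by rcases hα with h | h <;> simp [h]
  have β2 : β * β = 1 := by rcases hβ with h | h <;> simp [h]
  have γ2 : γ * γ = 1 := by rcases hγ with h | h <;> simp [h]
  have m2 : (1 - (w₁ * q₂ - w₂ * q₁)) * (1 - (w₁ * q₂ - w₂ * q₁)) = 1 := by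
    rcases hq with h | h <;> rw [h] <;> norm_num
  have hh' : Hit p a (α * β * γ * δ * e₁) (α * β * γ * δ * e₂) := by
    rcases hα with rfl | rfl <;> rcases hβ with rfl | rfl <;> rcases hγ with rfl | rfl <;>
      rcases hδ with rfl | rfl <;> first | simpa using hh | simpa using hh.neg
  refine chain₁ t (α * u₁) (α * u₂) w₁ w₂ q₁ q₂
    ((1 - (w₁ * q₂ - w₂ * q₁)) * (1 + (α * u₁ * q₂ - α * u₂ * q₁)))
    (-(α * β * z₁)) (-(α * β * z₂)) (α * β * γ * d₁) (α * β * γ * d₂) _ _ ?_ ?_ ?_ ?_ ?_ hh'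
  · linear_combination h1
  · linear_combination (1 + (α * u₁ * q₂ - α * u₂ * q₁)) * m2
  · linear_combination h2 + β * ((u₁ - (w₁ * u₂ - w₂ * u₁) * q₁) * z₂ -
      (u₂ - (w₁ * u₂ - w₂ * u₁) * q₂) * z₁) * α2
  · linear_combination h3 + γ * (z₁ * d₂ - z₂ * d₁) * (β * β * α2 + β2)
  · linear_combination h4 + δ * (d₁ * e₂ - d₂ * e₁) * (γ * γ * (β * β * α2 + β2) + γ2)

end Pool.Agent.Lib.MP_755cca_al.Low
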